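import Pool.Agent.V11318.MirFin

/-!
# MP_5d65a3_an: a self-mirror dimension spectrum that is not an interval

There is an infinite conformal iterated function system on the real line (alphabet `ℕ`, all maps
infinitely differentiable diffeomorphisms) whose dimension spectrum is
`K = [0, 1/100] ∪ [2/100, 3/100]`.  Since `sup K - K = K`, both `K` and its mirror image are
dimension spectra of an infinite system, although `K` is not of the form `[0, l]`.
-/

namespace Pool.Agent.Results.MP_5d65a3_an.MirrorSpectrum

open Set Pool.Agent.V11318.Mir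

theorem result : ∃ (X V : Set ℝ) (u : ℕ → ℝ → ℝ), IsCIFS ℕ X V u ∧
    spectrum X u = Icc 0 (1/100) ∪ Icc (2/100) (3/100) ∧
    {y : ℝ | ∃ x ∈ spectrum X u, y = sSup (spectrum X u) - x} = spectrum X u ∧
    ¬ ∃ l : ℝ, spectrum X u = Icc 0 l := by
  obtain ⟨P⟩ := exists_par
  refine ⟨Icc 0 1, Ioo (-1) 2, Pool.Agent.V11318.Mir.u P, isCIFS P, spectrum_eq P, ?_, ?_⟩
  · rw [spectrum_eq P]
    have hsup : sSup (Icc (0:ℝ) (1/100) ∪ Icc (2/100) (3/100)) = 3/100 := by
      apply IsGreatest.csSup_eq
      constructor
      · right; constructor <;> norm_num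
      · rintro x (hx | hx)
        · exact hx.2.trans (by norm_num)
        · exact hx.2
    rw [hsup]
    ext y
    simp only [mem_ofPred_eq, mem_union, mem_Icc]
    constructor
    · rintro ⟨x, hx | hx, rfl⟩
      · right; constructor <;> linarith [hx.1, hx.2]
      · left; constructor <;> linarith [hx.1, hx.2]
    · rintro (hy | hy)
      · exact ⟨3/100 - y, Or.inr ⟨by linarith [hy.2], by linarith [hy.1]⟩, by ring⟩
      · exact ⟨3/100 - y, Or.inl ⟨by linarith [hy.2], by linarith [hy.1]⟩, by ring⟩
  · rintro ⟨l, hl⟩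
    rw [spectrum_eq P] at hl
    have h3 : (3/100 : ℝ) ∈ Icc (0:ℝ) l := by
      rw [← hl]; right; constructor <;> norm_num
    have h4 : (3/200 : ℝ) ∈ Icc (0:ℝ) (1/100) ∪ Icc (2/100) (3/100) := by
      rw [hl]; exact ⟨by norm_num, by linarith [h3.2]⟩
    rcases h4 with h | h
    · have := h.2; norm_num at this
    · have := h.1; norm_num at this

end Pool.Agent.Results.MP_5d65a3_an.MirrorSpectrum
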